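import Pool.Agent.H11.NZ.Targets

/-!
# Module CM1 of the board nz_modules (MP_9b2842_al)
-/

set_option autoImplicit false

namespace Pool.Agent.H48.NZ.CM1

open Pool.Agent.H11.NZ
open scoped commutatorElement

theorem perfect_not_solvable {C : Type} [Group C] (S E : Subgroup C) (hS : Group.IsSolvable S)
    (hE : ⁅E, E⁆ = E) (h0 : E ≠ ⊥) (hle : E ≤ S) : False := by
  have hES : Group.IsSolvable E :=
    Group.isSolvable_of_isSolvable_injective (Subgroup.inclusion_injective hle)
  have hnt : Nontrivial E := by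
    rw [Subgroup.nontrivial_iff_ne_bot]
    exact h0
  have h1 : ⁅(⊤ : Subgroup E), ⊤⁆ < ⊤ := Group.IsSolvable.commutator_lt_top_of_nontrivial E
  have h2 : Subgroup.map E.subtype ⁅(⊤ : Subgroup E), ⊤⁆ = Subgroup.map E.subtype ⊤ := by
    rw [Subgroup.map_commutator, ← MonoidHom.range_eq_map, Subgroup.range_subtype]
    exact hE
  have h3 : ⁅(⊤ : Subgroup E), ⊤⁆ = ⊤ :=
    Subgroup.map_injective (Subgroup.subtype_injective E) h2
  exact absurd h3 (ne_of_lt h1)

theorem pf_cm1 : T_CM1 := by
  intro C _ _ S hSn hS m E hE h0 hc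
  have key : ∀ k : ℕ, k ≤ m → ∃ U : Subgroup C, S ≤ U ∧
      (∀ x ∈ U, ∃ σ ∈ S, ∃ u : C, x = σ * u ∧
        ∀ j : Fin m, k ≤ j.val → ∀ y ∈ E j, u * y = y * u) ∧ 2 ^ k * U.index ≤ S.index := by
    intro k
    induction k with
    | zero =>
      intro _
      refine ⟨S, le_refl _, fun x hx => ⟨x, hx, 1, by simp, fun j _ y _ => by simp⟩, by simp⟩
    | succ k ih =>
      intro hk
      obtain ⟨U, hSU, hU, hind⟩ := ih (by omega)
      have hkm : k < m := by omega
      set Ek := E ⟨k, hkm⟩ with hEk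
      -- not contained
      have hne : ¬ Ek ≤ U := by
        intro hle
        refine perfect_not_solvable S Ek hS (hE _) (h0 _) ?_
        have hEE : ⁅Ek, Ek⁆ = Ek := hE ⟨k, hkm⟩
        rw [← hEE, Subgroup.commutator_le]
        intro x hx y hy
        obtain ⟨σ, hσ, u, rfl, hu⟩ := hU x (hle hx)
        have huy : u * y = y * u := hu ⟨k, hkm⟩ (le_refl _) y hy
        have h3 : ⁅σ * u, y⁆ = σ * (y * σ⁻¹ * y⁻¹) := by
          rw [commutatorElement_def, mul_inv_rev]
          calc σ * u * y * (u⁻¹ * σ⁻¹) * y⁻¹ = σ * (u * y) * u⁻¹ * σ⁻¹ * y⁻¹ := by group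
            _ = σ * (y * u) * u⁻¹ * σ⁻¹ * y⁻¹ := by rw [huy]
            _ = σ * (y * σ⁻¹ * y⁻¹) := by group
        rw [h3]
        exact S.mul_mem hσ (hSn.conj_mem _ (S.inv_mem hσ) y)
      refine ⟨U ⊔ Ek, le_trans hSU le_sup_left, ?_, ?_⟩
      · -- the elements of form
        let V : Subgroup C :=
          { carrier := {x | ∃ σ ∈ S, ∃ u : C, x = σ * u ∧
              ∀ j : Fin m, k + 1 ≤ j.val → ∀ y ∈ E j, u * y = y * u}
            one_mem' := ⟨1, S.one_mem, 1, by simp, fun j _ y _ => by simp⟩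
            mul_mem' := by
              rintro a b ⟨σ, hσ, u, rfl, hu⟩ ⟨τ, hτ, v, rfl, hv⟩
              refine ⟨σ * (u * τ * u⁻¹), S.mul_mem hσ (hSn.conj_mem τ hτ u), u * v, by group, ?_⟩
              intro j hj y hy
              rw [mul_assoc, hv j hj y hy, ← mul_assoc, hu j hj y hy, mul_assoc]
            inv_mem' := by
              rintro a ⟨σ, hσ, u, rfl, hu⟩
              refine ⟨u⁻¹ * σ⁻¹ * u, ?_, u⁻¹, by group, ?_⟩
              · have := hSn.conj_mem σ⁻¹ (S.inv_mem hσ) u⁻¹
                simpa using this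
              · intro j hj y hy
                have h4 := hu j hj y hy
                calc u⁻¹ * y = u⁻¹ * (y * u) * u⁻¹ := by group
                  _ = u⁻¹ * (u * y) * u⁻¹ := by rw [h4]
                  _ = y * u⁻¹ := by group }
        have hUV : U ≤ V := by
          intro x hx
          obtain ⟨σ, hσ, u, h5, hu⟩ := hU x hx
          exact ⟨σ, hσ, u, h5, fun j hj y hy => hu j (by omega) y hy⟩
        have hEV : Ek ≤ V := by
          intro x hx
          refine ⟨1, S.one_mem, x, by simp, fun j hj y hy => ?_⟩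
          refine hc ⟨k, hkm⟩ j ?_ x hx y hy
          intro h6
          rw [← h6] at hj
          simp at hj
        intro x hx
        exact (sup_le hUV hEV) hx
      · have hlt : U < U ⊔ Ek := by
          refine lt_of_le_of_ne le_sup_left ?_
          intro h7
          exact hne (h7 ▸ le_sup_right)
        have hri : U.relIndex (U ⊔ Ek) ≠ 1 := by
          intro h8
          rw [Subgroup.relIndex_eq_one] at h8
          exact absurd (lt_of_lt_of_le hlt h8) (lt_irrefl _)
        have hri0 : U.relIndex (U ⊔ Ek) ≠ 0 := Subgroup.index_ne_zero_of_finite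
        have hmul : U.relIndex (U ⊔ Ek) * (U ⊔ Ek).index = U.index :=
          Subgroup.relIndex_mul_index (le_of_lt hlt)
        have h2le : 2 ≤ U.relIndex (U ⊔ Ek) := by omega
        calc 2 ^ (k + 1) * (U ⊔ Ek).index = 2 ^ k * (2 * (U ⊔ Ek).index) := by ring
          _ ≤ 2 ^ k * (U.relIndex (U ⊔ Ek) * (U ⊔ Ek).index) :=
              Nat.mul_le_mul_left _ (Nat.mul_le_mul_right _ h2le)
          _ = 2 ^ k * U.index := by rw [hmul]
          _ ≤ S.index := hind
  obtain ⟨U, _, _, h⟩ := key m (le_refl _)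
  have hpos : 0 < U.index := Nat.pos_of_ne_zero Subgroup.index_ne_zero_of_finite
  exact le_trans (Nat.le_mul_of_pos_right _ hpos) h

end Pool.Agent.H48.NZ.CM1
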